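import Mathlib
import Pool.Agent.Y867.FM5

set_option autoImplicit false

/-!
# Fermat numbers with a random amplitude: finiteness, the tail law, and an explicit bound

Every prime factor of the Fermat number `F_m = 2 ^ (2 ^ m) + 1` exceeds `2 ^ (m + 1)`. For a real
amplitude `β > 0` let `G 2 m β` be the `2 ^ (m + 1)`-rough part (the product, with multiplicity, of
the prime factors larger than `2 ^ (m + 1)`) of the integer part of `β F_m`; so `G 2 m 1 = F_m`, and
the question asks for the primes among the `G 2 m 1`, `m ≥ 5`. The same is done for the generalised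
Fermat numbers `a ^ (2 ^ m) + 1` (for even `a` they are the values at `β = 1`).

We prove that almost every amplitude gives only finitely many primes; that the proportion of the
amplitudes of any interval which give a prime of index at least `M` is asymptotic to
`2 e^γ (log 2 / log a) M / 2 ^ M`; and that for `a = 2` fewer than one amplitude in `400000` of
`(1, 2]` gives a prime of index `m ≥ 31`. (The file of the problem records that `F_5, ..., F_30` are
composite.) This is the metric form of the heuristic of Boklan and Conway on further Fermat primes.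
-/

namespace Pool.Agent.Results.MP_37e5fa_nt.AmplitudeTailLaw

open Filter Topology MeasureTheory

/-- The product, with multiplicity, of the prime factors of `n` that are larger than `y`. -/
def roughPart (y n : ℕ) : ℕ := (n.primeFactorsList.filter (fun r => y < r)).prod

/-- The `2 ^ (m + 1)`-rough part of the integer part of `β (a ^ (2 ^ m) + 1)`. -/
noncomputable def G (a m : ℕ) (β : ℝ) : ℕ := roughPart (2 ^ (m + 1)) ⌊β * ((a : ℝ) ^ (2 ^ m) + 1)⌋₊

/-- (1) For even `a` the value at the amplitude one is `a ^ (2 ^ m) + 1`, in particular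
`G 2 m 1 = F_m`. (2) For every `a ≥ 2` and almost every amplitude `β > 0` only finitely many
`G a m β` are prime, and in every interval of amplitudes the proportion of those with some prime
`G a m β`, `m ≥ M`, is `~ 2 e^γ (log 2 / log a) M / 2 ^ M` as `M → ∞`. (3) The set of the amplitudes
`1 < β ≤ 2` for which some `G 2 m β`, `m ≥ 31`, is prime has measure at most `1 / 400000`. -/
theorem result :
    (∀ a m : ℕ, 2 ∣ a → G a m 1 = a ^ (2 ^ m) + 1) ∧
    (∀ a : ℕ, 2 ≤ a →
      (∀ᵐ β : ℝ, 0 < β → {m : ℕ | (G a m β).Prime}.Finite) ∧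
      ∀ b₀ b₁ : ℝ, 0 < b₀ → b₀ < b₁ → Tendsto (fun M : ℕ =>
        volume.real {β : ℝ | β ∈ Set.Ioc b₀ b₁ ∧ ∃ m : ℕ, M ≤ m ∧ (G a m β).Prime} / (b₁ - b₀) *
          (2 ^ M / M)) atTop
        (𝓝 (2 * Real.exp Real.eulerMascheroniConstant * Real.log 2 / Real.log a))) ∧
    volume.real {β : ℝ | β ∈ Set.Ioc (1 : ℝ) 2 ∧ ∃ m : ℕ, 31 ≤ m ∧ (G 2 m β).Prime} ≤
      1 / 400000 := by
  refine ⟨fun a m ha => Pool.Agent.Y867.FM.G_one ha m, fun a ha => ⟨?_, ?_⟩, ?_⟩
  · exact Pool.Agent.Y867.FM.ae_finite ha
  · intro b₀ b₁ h0 h1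
    exact Pool.Agent.Y867.FM.tail_law ha h0 h1
  · exact Pool.Agent.Y867.FM.explicit

end Pool.Agent.Results.MP_37e5fa_nt.AmplitudeTailLaw
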