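import Pool.Agent.Y875.UE.Fin3

/-!
# A Pepin test in every base

For every integer `b` other than `0` and `± 2^n` there are a period `T` and transcendental
`2`-adic integers `C_i` (`i` modulo `T`), given explicitly by `2`-adic logarithms of Jacobi sums,
such that for every Fermat prime `F_m` the `2^k`-th power residue symbol of `b` modulo `F_m` is
`2^(-2^(m+1-k) C_m)`, for all levels `k ≤ m - 2 log_2 |b| - 2`.  Hence for all large `m` the Fermat
number `F_m` is prime if and only if `b` has order `2^(2^m - v)` modulo `F_m`, where `v` is the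
`2`-adic valuation of `C_m`, a periodic function of `m`.
-/

set_option autoImplicit false

namespace Pool.Agent.Results.MP_37e5fa_nt.EveryBase

open Finset

/-- `L` is Iwasawa's `2`-adic logarithm on `ℂ_2`, normalised by `L 2 = 0`
(the value at `0` is irrelevant). -/
structure IsLog (L : ℂ_[2] → ℂ_[2]) : Prop where
  mul : ∀ x y : ℂ_[2], x ≠ 0 → y ≠ 0 → L (x * y) = L x + L y
  two : L 2 = 0
  ser : ∀ z : ℂ_[2], ‖z‖ < 1 →
    HasSum (fun n : ℕ => (-1 : ℂ_[2]) ^ n * z ^ (n + 1) / ((n : ℂ_[2]) + 1)) (L (1 + z))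

/-- the exponent `e` in `p - 1 = 2^e u`, `u` odd -/
def ee (p : ℕ) : ℕ := padicValNat 2 (p - 1)

/-- the odd number `u` in `p - 1 = 2^e u` -/
def uu (p : ℕ) : ℕ := (p - 1) / 2 ^ ee p

/-- The Jacobi sum of `χ^a` and of the Legendre symbol modulo `p`. -/
noncomputable def J (p : ℕ) (χ : MulChar (ZMod p) (AlgebraicClosure ℚ)) (a : ℕ) :
    AlgebraicClosure ℚ :=
  ∑ s ∈ range p, χ (s : ZMod p) ^ a * (jacobiSym (1 - s) p : AlgebraicClosure ℚ)

/-- The `2`-adic number attached to an odd prime `p`, a character `χ` of order `u` modulo `p`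
and `m`. -/
noncomputable def C (L : ℂ_[2] → ℂ_[2]) (τ : AlgebraicClosure ℚ →+* ℂ_[2]) (p : ℕ)
    (χ : MulChar (ZMod p) (AlgebraicClosure ℚ)) (m : ℕ) : ℂ_[2] :=
  L (p : ℂ_[2]) / 4 + ∑ a ∈ Ico 1 (uu p), τ (χ ((2 : ZMod p) ^ (2 ^ (m + 1 - ee p)))⁻¹) ^ a *
    (L (τ (J p χ a)) / 2 - L (p : ℂ_[2]) / 4)

theorem result :
    -- the data exist
    (∃ L, IsLog L) ∧ Nonempty (AlgebraicClosure ℚ →+* ℂ_[2]) ∧
    (∃ χ : ∀ p : ℕ, MulChar (ZMod p) (AlgebraicClosure ℚ),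
      ∀ p : ℕ, p.Prime → Odd p → orderOf (χ p) = uu p) ∧
    -- the theorem
    ∀ (L : ℂ_[2] → ℂ_[2]) (_ : IsLog L) (τ : AlgebraicClosure ℚ →+* ℂ_[2])
      (χ : ∀ p : ℕ, MulChar (ZMod p) (AlgebraicClosure ℚ))
      (_ : ∀ p : ℕ, p.Prime → Odd p → orderOf (χ p) = uu p)
      (b : ℤ) (_ : b ≠ 0) (_ : ∀ n : ℕ, b ≠ 2 ^ n ∧ b ≠ -2 ^ n),
      ∃ (T : ℕ) (c : ZMod T → ℤ_[2]), 0 < T ∧ (∀ i, Transcendental ℚ (c i : ℚ_[2])) ∧
        ∀ m : ℕ, 2 * Nat.log 2 b.natAbs + 2 ≤ m →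
          -- the value of the 2-adic number
          algebraMap ℚ_[2] ℂ_[2] (c m : ℚ_[2]) =
            ∑ p ∈ b.natAbs.primeFactors.erase 2,
              (b.natAbs.factorization p : ℂ_[2]) * C L τ p (χ p) m ∧
          -- the power residue law and its converse, at all levels
          (∀ k a : ℕ, k + 2 * Nat.log 2 b.natAbs + 2 ≤ m → ‖c m - (a : ℤ_[2])‖ ≤ 2⁻¹ ^ k →
            ((Nat.fermatNumber m).Prime → (b : ZMod (Nat.fermatNumber m)) ^ (2 ^ (2 ^ m - k)) *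
              2 ^ (2 ^ (m + 1 - k) * a) = 1) ∧
            (¬ 2 ^ k ∣ a → (b : ZMod (Nat.fermatNumber m)) ^ (2 ^ (2 ^ m - k)) *
              2 ^ (2 ^ (m + 1 - k) * a) = 1 → (Nat.fermatNumber m).Prime)) ∧
          -- the criterion
          ((c m).valuation + 2 * Nat.log 2 b.natAbs + 3 ≤ m → ((Nat.fermatNumber m).Prime ↔
            orderOf (b : ZMod (Nat.fermatNumber m)) = 2 ^ (2 ^ m - (c m).valuation))) := by
  refine ⟨?_, Pool.Agent.Y875.UE.exists_tau, Pool.Agent.Y875.UE.exists_chars, ?_⟩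
  · obtain ⟨L, hL⟩ := Pool.Agent.W289.SL.exists_iwasawaLog 2
    exact ⟨L, hL.mul, by simpa using hL.prime, hL.ser⟩
  · intro L hL τ χ hχ b hb0 hb
    exact Pool.Agent.Y875.UE.final Pool.Agent.Y875.UE.parts Pool.Agent.Y875.UE.parts2 L
      ⟨hL.mul, by simpa using hL.two, hL.ser⟩ τ χ hχ b hb0 hb

end Pool.Agent.Results.MP_37e5fa_nt.EveryBase
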