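import Pool.Agent.Y875.FP.MerH

/-!
# The exact index of every number `2^s - 1`, `s` odd, modulo a Fermat prime

For `m ≥ 4` let `F_m = 2^(2^m) + 1`.  If `F_m` is prime, then `2^s - 1` raised to the power
`(F_m - 1) / 2^(m+1)` is a power `2^E` of `2`, and `E` modulo `2^(m+1)` is given by an explicit
truncated `2`-adic logarithmic series with signs; conversely the congruence forces `F_m` to be
prime as soon as `2^(m+1)` does not divide `E`.
-/

namespace Pool.Agent.Results.MP_37e5fa_nt.MersenneIndex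

/-- The sign `ε_s(k)`: it is `+1` if the least residue of `k / s` modulo `2^(m+1)` is less than
`2^m`, and `-1` otherwise. -/
def sgn (m s k : ℕ) : ℤ :=
  if ((k : ZMod (2 ^ (m + 1))) * (s : ZMod (2 ^ (m + 1)))⁻¹).val < 2 ^ m then 1 else -1

/-- `4 E ≡ s ∑_{k=1}^{2m+4} ε_s(k) 2^k / k` modulo `2^(m+3)`, in the ring of rational numbers with
odd denominator. -/
def Ind (m s E : ℕ) : Prop :=
  ∃ d n : ℤ, Odd d ∧
    (d : ℚ) * (4 * E - s * ∑ k ∈ Finset.Icc 1 (2 * m + 4), (sgn m s k : ℚ) * 2 ^ k / k) =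
      2 ^ (m + 3) * n

lemma ind_iff (m s E : ℕ) : Ind m s E ↔ Pool.Agent.Y875.FP.IsInd m 2 s (2 * m + 4) E := by
  unfold Ind Pool.Agent.Y875.FP.IsInd
  have h1 : ∑ k ∈ Finset.Icc 1 (2 * m + 4), (sgn m s k : ℚ) * 2 ^ k / k =
      Pool.Agent.Y875.FP.AA m 2 s (2 * m + 4) := by
    unfold Pool.Agent.Y875.FP.AA
    have h2 : Finset.Icc 1 (2 * m + 4) = Finset.Ico 1 (2 * m + 4 + 1) := by
      ext k
      simp only [Finset.mem_Icc, Finset.mem_Ico]
      omega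
    rw [h2, Finset.sum_Ico_eq_sum_range, Nat.add_sub_cancel]
    refine Finset.sum_congr rfl fun k _ => ?_
    rw [add_comm 1 k, mul_div_assoc]
    rfl
  rw [h1]

theorem result (m s : ℕ) (hm : 4 ≤ m) (hs : Odd s) :
    (∃ E : ℕ, Ind m s E) ∧ ∀ E : ℕ, Ind m s E →
      ((Nat.fermatNumber m).Prime →
        ((2 ^ s - 1 : ℕ) : ZMod (Nat.fermatNumber m)) ^
          ((Nat.fermatNumber m - 1) / 2 ^ (m + 1)) = 2 ^ E) ∧
      (¬ 2 ^ (m + 1) ∣ E →
        ((2 ^ s - 1 : ℕ) : ZMod (Nat.fermatNumber m)) ^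
          ((Nat.fermatNumber m - 1) / 2 ^ (m + 1)) = 2 ^ E → (Nat.fermatNumber m).Prime) := by
  have hbig : ∀ m : ℕ, 4 ≤ m → m + 1 ≤ 2 ^ m := by
    intro m hm
    exact Nat.lt_two_pow_self
  have hexp : (Nat.fermatNumber m - 1) / 2 ^ (m + 1) = 2 ^ (2 ^ m - (m + 1)) := by
    unfold Nat.fermatNumber
    rw [Nat.add_sub_cancel, Nat.pow_div (hbig m hm) (by norm_num)]
  have hcast : ((2 ^ s - 1 : ℕ) : ZMod (Nat.fermatNumber m)) = 2 ^ s - 1 := by
    rw [Nat.cast_sub Nat.one_le_two_pow]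
    push_cast
    ring
  refine ⟨?_, ?_⟩
  · obtain ⟨E, hE⟩ := Pool.Agent.Y875.FP.exists_isInd m s (2 * m + 2)
    exact ⟨E, (ind_iff m s E).mpr hE⟩
  · intro E hE
    rw [ind_iff] at hE
    rw [hexp, hcast]
    exact ⟨fun hF => Pool.Agent.Y875.FP.mersenne_index hm hs hE hF,
      fun hd h => Pool.Agent.Y875.FP.mersenne_conv hm hd h⟩

end Pool.Agent.Results.MP_37e5fa_nt.MersenneIndex
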