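import Pool.Agent.Y875.FP.Conv

namespace Pool.Agent.Results.MP_37e5fa_nt.RefinedPepin

/-- A refined Pepin criterion. Let `r ≥ 2`, let all prime factors of `b` divide the Fermat number
`F_j`, and let `b ^ (2 ^ (r - 1)) - 1` be not divisible by `2 ^ (2 * (r + 1))`. Then `F_(j+r)` is
prime if and only if the power of `b` whose exponent is `(F_(j+r) - 1) / 2 ^ (r + 1)` is the
inverse, modulo `F_(j+r)`, of an explicit power of `2 ^ (2 ^ j)`. -/
theorem result (j r b : ℕ) (hr : 2 ≤ r)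
    (hb : ∀ q : ℕ, q.Prime → q ∣ b → q ∣ Nat.fermatNumber j)
    (hb2 : ¬ 2 ^ (2 * (r + 1)) ∣ b ^ (2 ^ (r - 1)) - 1) :
    (Nat.fermatNumber (j + r)).Prime ↔
      (b : ZMod (Nat.fermatNumber (j + r))) ^ (2 ^ (2 ^ (j + r) - (r + 1))) *
        2 ^ (2 ^ j * ((b ^ (2 ^ (r - 1)) - 1) / 2 ^ (r + 1))) = 1 :=
  Pool.Agent.Y875.FP.criterion j r b hr hb hb2

end Pool.Agent.Results.MP_37e5fa_nt.RefinedPepin
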